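import Pool.Agent.Helper19.PQ.St.Stubs

/-!
# Project PQ, piece PQ-8: integral curves orthogonal to the field
-/

open MeasureTheory Set Metric Filter Module Matrix
open scoped NNReal Topology RealInnerProductSpace ENNReal Real ContDiff Manifold

namespace Pool.Agent.Helper19.PQ

open Spec (WY)

variable {E : Type*} [NormedAddCommGroup E] [InnerProductSpace ℝ E] [FiniteDimensional ℝ E]

private lemma pq8_contDiffAt {V : E → E} (hV : ContDiffOn ℝ 1 V {0}ᶜ) {x₀ : E} (h0 : x₀ ≠ 0)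
    (Y : E) : ContDiffAt ℝ 1 (WY V Y) x₀ := by
  have hVat : ContDiffAt ℝ 1 V x₀ := hV.contDiffAt (isOpen_compl_singleton.mem_nhds h0)
  have h1 : ContDiffAt ℝ 1 (fun z : E => ⟪z, Y⟫ / ‖z‖ ^ 2) x₀ :=
    (contDiffAt_id.inner ℝ contDiffAt_const).div (contDiff_norm_sq ℝ).contDiffAt
      (pow_ne_zero 2 (norm_ne_zero_iff.2 h0))
  have h2 : ContDiffAt ℝ 1 (fun z : E => ⟪V z, Y⟫) x₀ := hVat.inner ℝ contDiffAt_const
  exact (contDiffAt_const.sub (h1.smul contDiffAt_id)).sub (h2.smul hVat)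

private lemma pq8_inner_left {V : E → E} (ht : ∀ x : E, ⟪x, V x⟫ = 0) {z : E} (hz : z ≠ 0)
    (Y : E) : ⟪z, WY V Y z⟫ = 0 := by
  have h1 : ‖z‖ ^ 2 ≠ 0 := pow_ne_zero 2 (norm_ne_zero_iff.2 hz)
  unfold WY
  rw [inner_sub_right, inner_sub_right, inner_smul_right, inner_smul_right, ht z,
    real_inner_self_eq_norm_sq, div_mul_cancel₀ _ h1, mul_zero, sub_zero, sub_self]

private lemma pq8_inner_right {V : E → E} (hu : ∀ x : E, x ≠ 0 → ‖V x‖ = 1)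
    (ht : ∀ x : E, ⟪x, V x⟫ = 0) {z : E} (hz : z ≠ 0) (Y : E) : ⟪V z, WY V Y z⟫ = 0 := by
  unfold WY
  rw [inner_sub_right, inner_sub_right, inner_smul_right, inner_smul_right,
    real_inner_comm z (V z), ht z, real_inner_self_eq_norm_sq, hu z hz]
  ring

theorem exists_curve {V : E → E} (hV : ContDiffOn ℝ 1 V {0}ᶜ) (hu : ∀ x : E, x ≠ 0 → ‖V x‖ = 1)
    (ht : ∀ x : E, ⟪x, V x⟫ = 0) {x₀ : E} (hx₀ : ‖x₀‖ = 1) (Y : E) :
    ∃ (γ : ℝ → E) (ε : ℝ), 0 < ε ∧ γ 0 = x₀ ∧ ∀ t ∈ Ioo (-ε) ε, ‖γ t‖ = 1 ∧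
      HasDerivAt γ (WY V Y (γ t)) t ∧ ⟪γ t, WY V Y (γ t)⟫ = 0 ∧
      ⟪V (γ t), WY V Y (γ t)⟫ = 0 := by
  have h0 : x₀ ≠ 0 := by
    intro h
    rw [h, norm_zero] at hx₀
    exact zero_ne_one hx₀
  obtain ⟨γ, hγ0, ε, hε, hγ⟩ :=
    (pq8_contDiffAt hV h0 Y).exists_forall_mem_closedBall_exists_eq_forall_mem_Ioo_hasDerivAt₀ 0
  rw [zero_sub, zero_add] at hγ
  have hc : ContinuousAt γ 0 := (hγ 0 ⟨by linarith, hε⟩).continuousAt
  have hne : ∀ᶠ t in 𝓝 (0 : ℝ), γ t ≠ 0 := hc.eventually_ne (by rw [hγ0]; exact h0)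
  obtain ⟨δ, hδ, hδ'⟩ := Metric.eventually_nhds_iff.1 hne
  have hpos : 0 < min δ ε := lt_min hδ hε
  have hz : ∀ t ∈ Ioo (-(min δ ε)) (min δ ε), γ t ≠ 0 := by
    intro t htt
    apply hδ'
    rw [Real.dist_eq, sub_zero, abs_lt]
    exact ⟨by linarith [htt.1, min_le_left δ ε], lt_of_lt_of_le htt.2 (min_le_left _ _)⟩
  have hd : ∀ t ∈ Ioo (-(min δ ε)) (min δ ε), HasDerivAt γ (WY V Y (γ t)) t := by
    intro t htt
    exact hγ t ⟨by linarith [htt.1, min_le_right δ ε], lt_of_lt_of_le htt.2 (min_le_right _ _)⟩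
  have hn : ∀ t ∈ Ioo (-(min δ ε)) (min δ ε), HasDerivAt (fun s => ⟪γ s, γ s⟫) 0 t := by
    intro t htt
    have h1 := (hd t htt).inner ℝ (hd t htt)
    have h2 : ⟪γ t, WY V Y (γ t)⟫ + ⟪WY V Y (γ t), γ t⟫ = 0 := by
      rw [real_inner_comm (γ t), pq8_inner_left ht (hz t htt) Y, add_zero]
    rwa [h2] at h1
  refine ⟨γ, min δ ε, hpos, hγ0, fun t htt => ⟨?_, hd t htt, pq8_inner_left ht (hz t htt) Y,
    pq8_inner_right hu ht (hz t htt) Y⟩⟩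
  have h3 : ⟪γ t, γ t⟫ = ⟪γ 0, γ 0⟫ :=
    isOpen_Ioo.is_const_of_deriv_eq_zero isPreconnected_Ioo
      (f := fun s => ⟪γ s, γ s⟫)
      (fun s hs => (hn s hs).differentiableAt.differentiableWithinAt)
      (fun s hs => (hn s hs).deriv) htt ⟨by linarith, hpos⟩
  rw [hγ0, real_inner_self_eq_norm_sq, real_inner_self_eq_norm_sq, hx₀] at h3
  have h4 : 0 ≤ ‖γ t‖ := norm_nonneg _
  nlinarith

end Pool.Agent.Helper19.PQ
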